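import Pool.Agent.Q269.DX.Asm
import Pool.Agent.Q269.SX.Avg
import Pool.Agent.Q269.SX.Grp

/-!
# The exact law of the orders of the 2-Selmer groups inside the divisors of almost every polynomial over a finite field

Let `k` be a finite field of characteristic different from 2 in which `-1` is a square, `K = k(t)`. For each `r` in a finite set let
`n r ≥ 3` be an odd number and let `a r 1, …, a r (n r)` be polynomials over `k` whose differences have the same degree `N r ≥ 1` and a
squarefree product `Δ r`; suppose that `Δ r` and `Δ r'` are coprime for `r ≠ r'`. For a monic squarefree polynomial `d` prime to all the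
`Δ r` let `J(r, d)` be the Jacobian of the curve of genus `(n r - 1) / 2`

`y ^ 2 = d(t) (x - a r 1) ⋯ (x - a r (n r))`

over `K` (elliptic curves for `n r = 3`). The laws of Heath-Brown, Kane and our `ExactLawSeveralFamilies` describe these groups when `d`
runs through ALL squarefree polynomials of a large degree. Here `d` runs only through the divisors of ONE polynomial `D`.

Theorem. There is ONE set `S` of monic squarefree polynomials of density one such that for ALL finite collections of such families the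
following holds, as the degree of `D` in `S` tends to infinity, for the divisors `d` of `D` prime to the differences with `deg d + N r` odd
for all `r`:

(1) (for all `d`) the groups `J(K) / (J(K)[2] + 2 J(K))` and `Ш'(J)[2]`, `J = J(r, d)`, are finite and the product of their orders is
`2 ^ (e r)`; `e r` is congruent modulo 2 to the number of the split nodes; `e r = 0` if and only if `J(K) = J(K)[2] + 2 J(K)` and the
2-primary part of `Ш'(J)` is zero (then the conjecture of Birch and Swinnerton-Dyer holds for `J`, by the theorem of Tate, Milne, Kato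
and Trihan). Here `Ш'(J)` is the group of the classes in `H ^ 1 (K, J)` trivial at all places different from infinity.

(2) There are `2 ^ (w - 1)` of these divisors, `w` the number of the prime divisors of `D` prime to the differences, and the classes
of the divisors with given sets of split nodes all have the same number of elements.

(3) The mean of every function of the vector `(e r)_r` of at most exponential growth over the divisors (over the divisors in a class)
tends to its integral for the product of the laws `p(e) = (β / 2) 2 ^ e / ∏_(1 ≤ i ≤ e) (2 ^ i - 1)`, `β = ∏_(i ≥ 0) (1 - 2 ^ (- 2 i - 1))`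
(of the laws `2 p` on the numbers with the parity of the number of the split nodes).

(4) In particular: the moments; the share of the divisors with `e r = 0` for all `r` tends to `(β / 2) ^ (number of the r)`, `β / 2 > 0.2097`;
the mean of `e r` tends to `∑ e p(e) ≤ 1.2647`.

(5) EVERY `e r` is at most `ε` times the number of the prime divisors of `D`.

The proof follows the method of `DivisorsOfAlmostEveryInteger` (helper44 and coauthors): the moments of the orders of the kernels over all
the families of divisors, for random symmetric matrices of symbols with given small primes; the second moment method in the cells of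
tuples of primes; and the exact 2-descent for all genera (`ExactLawJacobians`).
-/

set_option autoImplicit false
set_option linter.all false

namespace Pool.Agent.Results.MP_48b749_nt.DivisorsOfAlmostEveryPolynomial

open Polynomial Filter IsDedekindDomain Pool.Agent.Y713.Jac
open scoped Classical

/-- The product of the differences `a i - a j`, `i < j`. -/
noncomputable def differences {k : Type} [Field k] {n : ℕ} (a : Fin n → k[X]) : k[X] :=
  ∏ x ∈ (Finset.univ : Finset (Fin n × Fin n)).filter (fun x => x.1 < x.2), (a x.1 - a x.2)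

/-- The curve: `k` is a finite field of characteristic different from two in which `-1` is a square, `n ≥ 3` is odd, the
differences `a i - a j` have the same degree `N ≥ 1`, and their product over `i < j` is squarefree. -/
structure Family {k : Type} [Field k] {n : ℕ} (a : Fin n → k[X]) (N : ℕ) : Prop where
  two : (2 : k) ≠ 0
  square : IsSquare (-1 : k)
  odd : Odd n
  three : 3 ≤ n
  pos : 1 ≤ N
  degree : ∀ i j, i ≠ j → (a i - a j).natDegree = N
  squarefree : Squarefree (differences a)

/-- The polynomial `D(t) (x - a 1) ⋯ (x - a n)` in `x` over `K = k(t)`. -/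
noncomputable def twist {k : Type} [Field k] (K : Type) [Field K] [Algebra k[X] K] {n : ℕ}
    (a : Fin n → k[X]) (D : k[X]) : K[X] :=
  C (algebraMap k[X] K D) * ∏ i, (X - C (algebraMap k[X] K (a i)))

/-- The subgroup `J(K)[2] + 2 J(K)` of `J(K)`, `J` the Jacobian of `y ^ 2 = F(x)` over `K`: the group generated by the kernel and the
image of the squaring (multiplicative notation). -/
noncomputable def torsionAndDoubles {K : Type} [Field K] (F : K[X]) : Subgroup (J 2 F K) :=
  (powMonoidHom 2).ker ⊔ (powMonoidHom 2).range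

/-- The cocycles with values in `J` which are trivial over the completions of `K = Frac R` at the primes of `R` and whose class is
killed by two. -/
def LocallyTrivialTwo {K : Type} [Field K] (F : K[X]) (R : Type) [CommRing R] [IsDedekindDomain R] [Algebra R K]
    [IsFractionRing R K] : Type :=
  {c : Cochain 2 F // IsCocycle 2 F c ∧ IsLocallyTrivial 2 F R c ∧ IsCoboundary 2 F (fun σ => c σ ^ 2)}

/-- The number of the classes in `H ^ 1 (K, J)` killed by two which are trivial over the completions of `K` at the primes of `R`. -/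
noncomputable def shaOrder {K : Type} [Field K] (F : K[X]) (R : Type) [CommRing R] [IsDedekindDomain R] [Algebra R K]
    [IsFractionRing R K] : ℕ :=
  Nat.card (Quot fun c c' : LocallyTrivialTwo F R => IsCoboundary 2 F (fun σ => c.1 σ / c'.1 σ))

/-- Both groups are finite and the product of their orders is `M`. -/
structure HasOrder {K : Type} [Field K] (F : K[X]) (R : Type) [CommRing R] [IsDedekindDomain R] [Algebra R K]
    [IsFractionRing R K] (M : ℕ) : Prop where
  order : (torsionAndDoubles F).index * shaOrder F R = M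
  points : (torsionAndDoubles F).index ≠ 0
  sha : shaOrder F R ≠ 0

/-- `J(K) = J(K)[2] + 2 J(K)`, and there is no class of order a power of two in `H ^ 1 (K, J)` which is trivial over the completions
of `K` at the primes of `R`. -/
def Good {K : Type} [Field K] (F : K[X]) (R : Type) [CommRing R] [IsDedekindDomain R] [Algebra R K]
    [IsFractionRing R K] : Prop :=
  (∀ x : J 2 F K, ∃ t y : J 2 F K, t ^ 2 = 1 ∧ x = t * y ^ 2) ∧ ShaPrimaryTrivial 2 F R

/-- The places at which the curve has a node: the monic prime divisors of the differences. -/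
def nodes {k : Type} [Field k] {n : ℕ} (a : Fin n → k[X]) : Set k[X] :=
  {Q | Q.Monic ∧ Irreducible Q ∧ Q ∣ differences a}

/-- The nodes with rational tangents of the curve twisted by `D`. -/
def splitNodes {k : Type} [Field k] {n : ℕ} (a : Fin n → k[X]) (D : k[X]) : Set k[X] :=
  {Q ∈ nodes a | ∃ i j : Fin n, i ≠ j ∧ Q ∣ a i - a j ∧
    ∃ h : k[X], Q ∣ h ^ 2 - D * ∏ l ∈ Finset.univ.filter (fun l => l ≠ i ∧ l ≠ j), (a i - a l)}

/-- The monic squarefree polynomials of degree `m`. -/
def Squarefrees (k : Type) [Field k] (m : ℕ) : Set k[X] := {D | D.Monic ∧ D.natDegree = m ∧ Squarefree D}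

/-- Almost all monic squarefree polynomials are in `S`. -/
def DensityOne {k : Type} [Field k] (S : Set k[X]) : Prop :=
  Tendsto (fun m => ({D ∈ Squarefrees k m | D ∈ S}.ncard : ℝ) / ((Squarefrees k m).ncard : ℝ)) atTop (nhds 1)

/-- `D` runs through the monic squarefree elements of `S`, its degree tends to infinity. -/
def toInfinity {k : Type} [Field k] (S : Set k[X]) : Filter k[X] :=
  comap natDegree atTop ⊓ 𝓟 {D | D ∈ S ∧ D.Monic ∧ Squarefree D}

/-- The monic prime divisors. -/
def primes {k : Type} [Field k] (D : k[X]) : Set k[X] := {P | P.Monic ∧ Irreducible P ∧ P ∣ D}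

/-- `d` is prime to the differences of all the families. -/
def PrimeTo {k : Type} [Field k] {R : Type} {n : R → ℕ} (a : (r : R) → Fin (n r) → k[X]) (d : k[X]) : Prop :=
  ∀ r i j, i ≠ j → IsCoprime d (a r i - a r j)

/-- The monic divisors `d` of `D` prime to the differences of all the families with `deg d + N r` odd for all `r`. -/
def Divisors {k : Type} [Field k] {R : Type} {n : R → ℕ} (a : (r : R) → Fin (n r) → k[X]) (N : R → ℕ) (D : k[X]) :
    Set k[X] :=
  {d | d.Monic ∧ d ∣ D ∧ PrimeTo a d ∧ ∀ r, Odd (d.natDegree + N r)}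

/-- The divisors for which the set of the split nodes of the `r`-th curve is `σ r` for all `r`. -/
def SplitClass {k : Type} [Field k] {R : Type} {n : R → ℕ} (a : (r : R) → Fin (n r) → k[X]) (N : R → ℕ)
    (σ : R → Set k[X]) (D : k[X]) : Set k[X] :=
  {d ∈ Divisors a N D | ∀ r, splitNodes (a r) d = σ r}

/-- The mean of `f` over the set `S`. -/
noncomputable def mean {α : Type} (S : Set α) (f : α → ℝ) : ℝ := (∑ᶠ D ∈ S, f D) / (S.ncard : ℝ)

/-- The infinite product of the numbers `1 - 2 ^ (- 2 i - 1)`, `i ≥ 0`. -/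
noncomputable def beta : ℝ := ∏' i : ℕ, (1 - (1 / 2 : ℝ) ^ (2 * i + 1))

/-- The probability of `e` in the law `p`. -/
noncomputable def law (e : ℕ) : ℝ :=
  beta / 2 * (2 ^ e / ∏ i ∈ Finset.range e, ((2 : ℝ) ^ (i + 1) - 1))

/-- The law `2 p` on the numbers congruent to `s` modulo two. -/
noncomputable def signedLaw (s e : ℕ) : ℝ := if Even (e + s) then 2 * law e else 0

/-- The mean value of the law `p`. -/
noncomputable def rho : ℝ := ∑' e : ℕ, (e : ℝ) * law e

section proof

open Pool.Agent.Q269.SX Pool.Agent.Y164.HG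
open Pool.Agent.Q269.SL (law2 lawc)

theorem law_eq : law2 = law := by
  funext e
  rw [Pool.Agent.Q269.SL.law2_eq]
  rfl

theorem signedLaw_eq (s : ℕ) : lawc (s : ZMod 2) = signedLaw s := by
  funext e
  rw [Pool.Agent.Q269.SL.lawc_eq, law_eq]
  have h4 : ((e : ZMod 2) = (s : ZMod 2)) ↔ Even (e + s) := by
    rw [← ZMod.natCast_eq_zero_iff_even]
    push_cast
    have h5 : ∀ x y : ZMod 2, x = y ↔ x + y = 0 := by decide
    exact h5 _ _
  unfold signedLaw
  simp only [h4]

theorem tad_eq {K : Type} [Field K] (F : K[X]) : torsionAndDoubles F = tsub F := by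
  ext x
  unfold torsionAndDoubles
  rw [Subgroup.mem_sup]
  constructor
  · rintro ⟨t, ht, z, ⟨y, rfl⟩, rfl⟩
    exact ⟨t, y, ht, rfl⟩
  · rintro ⟨t, y, ht, rfl⟩
    exact ⟨t, ht, y ^ 2, ⟨y, rfl⟩, rfl⟩

theorem order_of {K : Type} [Field K] {F : K[X]} {R : Type} [CommRing R] [IsDedekindDomain R] [Algebra R K]
    [IsFractionRing R K] {M : ℕ} (g1 : (tsub F).index * nSh F R = M) (g2 : (tsub F).index ≠ 0) (g3 : nSh F R ≠ 0) :
    HasOrder F R M :=
  ⟨by rw [tad_eq]; exact g1, by rw [tad_eq]; exact g2, g3⟩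

theorem geo {k : Type} [Field k] [Fintype k] {n : ℕ} {a : Fin n → k[X]} {N : ℕ} (h : Family a N) : Geo a N := by
  refine ⟨?_, h.square, h.odd, h.three, h.pos, h.degree, h.squarefree⟩
  intro h0
  apply h.two
  have := ringChar.Nat.cast_ringChar (R := k)
  rw [h0] at this
  exact_mod_cast this

theorem rho_eq : rho = Pool.Agent.Q269.AV.rho := by
  rw [rho, ← law_eq]
  rfl

theorem rho_le : rho ≤ 1.2647 := by
  rw [rho_eq]
  refine Real.tsum_le_of_sum_range_le (fun e => mul_nonneg (Nat.cast_nonneg _) (Pool.Agent.Q269.SL.law2_nonneg e))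
    fun n => ?_
  have h1 : ∑ e ∈ Finset.range n, (e : ℝ) * law2 e =
      Pool.Agent.Q269.MF.bet / 2 * ∑ e ∈ Finset.range n, (e : ℝ) * Pool.Agent.Q269.AV.bb e := by
    rw [Finset.mul_sum]
    refine Finset.sum_congr rfl fun e _ => ?_
    rw [Pool.Agent.Q269.AV.law2_bb]
    ring
  rw [h1]
  obtain ⟨h2, h3⟩ := Pool.Agent.Q269.AV.bet_half_le
  have h4 := mul_le_mul_of_nonneg_left (Pool.Agent.Q269.AV.sum_eb n) h2
  refine h4.trans ?_
  norm_num at h3 ⊢
  linarith

theorem half_lt : 0.2097 < beta / 2 := by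
  have h : 0.4194 < beta := Pool.Agent.Y948.CQ.t_C2.2.2.2.1
  linarith

end proof

open Pool.Agent.Q269.SX Pool.Agent.Y164.HG Pool.Agent.Q269.DX in
/-- **Theorem.** -/
theorem result (k : Type) [Field k] [Finite k] (h2 : (2 : k) ≠ 0) (hs : IsSquare (-1 : k)) (K : Type) [Field K]
    [Algebra k[X] K] [IsFractionRing k[X] K] :
    HasSum law 1 ∧ (∀ s, HasSum (signedLaw s) 1) ∧ 0.2097 < beta / 2 ∧ rho ≤ 1.2647 ∧
    ∃ S : Set k[X], DensityOne S ∧ (∀ c : ℕ, ∀ᶠ D in toInfinity S, c ≤ (primes D).ncard) ∧
      ∀ (l : ℕ) (n N : Fin (l + 1) → ℕ) (a : (r : Fin (l + 1)) → Fin (n r) → k[X]), (∀ r, Family (a r) (N r)) →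
        (∀ r r', r ≠ r' → IsCoprime (differences (a r)) (differences (a r'))) → (∀ r r', Even (N r + N r')) →
        ∃ e : k[X] → Fin (l + 1) → ℕ,
          (∀ d : k[X], d.Monic → Squarefree d → PrimeTo a d → (∀ r, Odd (d.natDegree + N r)) → ∀ r,
            HasOrder (twist K (a r) d) k[X] (2 ^ e d r) ∧ Even (e d r + (splitNodes (a r) d).ncard) ∧
            (e d r = 0 ↔ Good (twist K (a r) d) k[X])) ∧
          (∀ᶠ D in toInfinity S, 2 * (Divisors a N D).ncard = 2 ^ ({P ∈ primes D | PrimeTo a P}.ncard) ∧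
            ∀ σ : Fin (l + 1) → Set k[X], (∀ r, σ r ⊆ nodes (a r)) →
              2 ^ (∑ r, (nodes (a r)).ncard) * (SplitClass a N σ D).ncard = (Divisors a N D).ncard) ∧
          (∀ (f : (Fin (l + 1) → ℕ) → ℝ) (u : ℕ) (C : ℝ), (∀ x, |f x| ≤ C * ∏ r, ((2 : ℝ) ^ u) ^ x r) →
            (Summable (fun x : Fin (l + 1) → ℕ => f x * ∏ r, law (x r)) ∧
              Tendsto (fun D => mean (Divisors a N D) fun d => f (e d)) (toInfinity S)
                (nhds (∑' x : Fin (l + 1) → ℕ, f x * ∏ r, law (x r)))) ∧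
            ∀ σ : Fin (l + 1) → Set k[X], (∀ r, σ r ⊆ nodes (a r)) →
              Summable (fun x : Fin (l + 1) → ℕ => f x * ∏ r, signedLaw (σ r).ncard (x r)) ∧
              Tendsto (fun D => mean (SplitClass a N σ D) fun d => f (e d)) (toInfinity S)
                (nhds (∑' x : Fin (l + 1) → ℕ, f x * ∏ r, signedLaw (σ r).ncard (x r)))) ∧
          (∀ u : Fin (l + 1) → ℕ, Tendsto (fun D => mean (Divisors a N D) fun d => ∏ r, ((2 : ℝ) ^ e d r) ^ u r)
            (toInfinity S) (nhds (∏ r, ∏ i ∈ Finset.range (u r), (1 + (2 : ℝ) ^ (i + 1))))) ∧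
          Tendsto (fun D => mean (Divisors a N D) fun d => if ∀ r, Good (twist K (a r) d) k[X] then 1 else 0)
            (toInfinity S) (nhds ((beta / 2) ^ (l + 1))) ∧
          (∀ r, Tendsto (fun D => mean (Divisors a N D) fun d => (e d r : ℝ)) (toInfinity S) (nhds rho)) ∧
          ∀ ε : ℝ, 0 < ε → ∀ᶠ D in toInfinity S, ∀ d ∈ Divisors a N D, ∀ r, (e d r : ℝ) ≤ ε * ((primes D).ncard : ℝ) := by
  let _ : Fintype k := Fintype.ofFinite k
  have hPRD := Pool.Agent.Q269.GR.Asm.a_PRD
  have hKDR := Pool.Agent.Q269.SX.Asm.d_KDR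
  have hCLN := Pool.Agent.Q269.DX.Asm.e_CLN
  have hk : ringChar k ≠ 2 := by
    intro h0
    apply h2
    have := ringChar.Nat.cast_ringChar (R := k)
    rw [h0] at this
    exact_mod_cast this
  obtain ⟨S₀, hS1, hS2, hS3⟩ := one_setW Pool.Agent.Q269.DX.Asm.e_ANA Pool.Agent.Q269.DX.Asm.e_INN
    Pool.Agent.Q269.DX.Asm.e_SPN hPRD hk hs
  have hfil : toInfinity {D | S₀ D} = lS S₀ := (lS_eq S₀).symm
  refine ⟨?_, ?_, half_lt, rho_le, {D | S₀ D}, ?_, ?_, ?_⟩
  · rw [← law_eq]
    exact hasSum_law2
  · intro s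
    rw [← signedLaw_eq]
    exact Pool.Agent.Q269.SL.hasSum_lawc _
  · have h1 := dens hPRD hk hs hS1
    refine h1.congr fun m => ?_
    have e1 : Squarefrees k m = ((Pool.Agent.Q269.GR.Dn (1 : k[X]) m : Finset k[X]) : Set k[X]) := by
      ext D
      rw [Finset.mem_coe, Pool.Agent.Q269.DX.mem_one, and_assoc]
      rfl
    have e2 : {D ∈ Squarefrees k m | D ∈ {D | S₀ D}} =
        (((Pool.Agent.Q269.GR.Dn (1 : k[X]) m).filter fun D => S₀ D : Finset k[X]) : Set k[X]) := by
      rw [e1]
      ext D
      rw [Finset.mem_coe, Finset.mem_filter]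
      rfl
    rw [e2, e1, Set.ncard_coe_finset, Set.ncard_coe_finset]
  · intro c
    rw [hfil]
    filter_upwards [hS2 c, lS_mem S₀] with D h1 h3
    have e1 : primes D = ((Pool.Agent.Q269.GR.pr D : Finset k[X]) : Set k[X]) := pr_eq hPRD h3
    rw [e1, Set.ncard_coe_finset]
    exact h1
  intro l n N a h hc hN
  have H : ∀ r, Geo (a r) (N r) := fun r => geo (h r)
  have hc' : ∀ r r', r ≠ r' → IsCoprime (Del (a r)) (Del (a r')) := hc
  obtain ⟨c, hcc⟩ : ∃ c : ZMod 2, ∀ r, c + (N r : ZMod 2) = 1 := by
    refine ⟨1 + (N 0 : ZMod 2), fun r => ?_⟩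
    have h3 := (ZMod.natCast_eq_zero_iff_even).2 (hN 0 r)
    rw [Nat.cast_add] at h3
    rw [add_assoc, h3, add_zero]
  have hNice := hS3 (l + 1) n a N H hc' 1 1 e1 e1_inj e1_ne
  have hSet : ∀ᶠ D in lS S₀, D ∈ Pool.Agent.Q269.GR.Dn (1 : k[X]) D.natDegree ∧
      Divisors a N D = ((dva H c (dp (∏ r, Del (a r)) D) : Finset k[X]) : Set k[X]) := by
    filter_upwards [lS_mem S₀] with D hD
    exact ⟨hD, dvS_eq H hPRD hKDR hD c 0 hcc⟩
  have hSetC : ∀ σ : Fin (l + 1) → Set k[X], (∀ r, σ r ⊆ nodes (a r)) → ∀ᶠ D in lS S₀,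
      SplitClass a N σ D = ((dvc H c (fun r => sgT (a r) (σ r)) (dp (∏ r, Del (a r)) D) : Finset k[X]) : Set k[X]) := by
    intro σ hσ
    filter_upwards [lS_mem S₀] with D hD
    exact clS_eq H hPRD hKDR hD c 0 hcc hσ
  have key : ∀ (f : (Fin (l + 1) → ℕ) → ℝ) (u : ℕ) (C : ℝ), (∀ x, |f x| ≤ C * wt u x) →
      Summable (fun x : Fin (l + 1) → ℕ => f x * ∏ r, law (x r)) ∧
      Tendsto (fun D => mean (Divisors a N D) fun d => f (fun r => ex (H r) d)) (toInfinity {D | S₀ D})
        (nhds (∑' x : Fin (l + 1) → ℕ, f x * ∏ r, law (x r))) := by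
    intro f u C hf
    obtain ⟨g1, g2⟩ := mean_dva H hCLN hPRD hKDR hNice c hcc f u C hf
    rw [law_eq] at g1 g2
    rw [tendsto_map'_iff] at g2
    refine ⟨g1, ?_⟩
    rw [hfil]
    refine g2.congr' ?_
    filter_upwards [hSet] with D hD
    unfold mean
    rw [hD.2]
    exact (mean_coe _ _).symm
  have P1 : ∀ d : k[X], d.Monic → Squarefree d → PrimeTo a d → (∀ r, Odd (d.natDegree + N r)) → ∀ r,
      HasOrder (twist K (a r) d) k[X] (2 ^ ex (H r) d) ∧ Even (ex (H r) d + (splitNodes (a r) d).ncard) ∧
        (ex (H r) d = 0 ↔ Good (twist K (a r) d) k[X]) := by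
    intro d hd1 hd2 hd3 ho r
    have hD : d ∈ Pool.Agent.Q269.GR.Dn (∏ r, Del (a r)) d.natDegree :=
      Pool.Agent.Q269.GR.mem_Dn'.2 ⟨⟨hd1, rfl⟩, hd2, cop_iff.2 hd3⟩
    have hD' : d ∈ Pool.Agent.Q269.GR.Dn (Del (a r)) d.natDegree := mem_of hD r
    have h4 := exact_kD (K := K) (H r) Asm.d_SEL Asm.d_BDX hKDR d.natDegree (ho r) d hD'
    rw [(kD_pow (H r) hKDR (ho r) hD').1] at h4
    obtain ⟨g1, g2, g3⟩ := Asm.d_CRD K _ k[X] _ h4 (by positivity)
    refine ⟨order_of g1 g2 g3, ?_, ?_⟩
    · have h5 := parity (H r) hKDR (ho r) hD'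
      have h6 : (splitNodes (a r) d).ncard = {Q ∈ BadN (a r) | SplitN (a r) d Q}.ncard := rfl
      show Even (ex (H r) d + (splitNodes (a r) d).ncard)
      rw [Nat.even_iff, h6]
      omega
    · have h5 : Good (twist K (a r) d) k[X] ↔ Pool.Agent.Q269.SL.BoundedBy (cur K (a r) d) k[X] 1 := by
        rw [bounded_one]
        exact ⟨fun g => ⟨g.2, g.1⟩, fun g => ⟨g.2, g.1⟩⟩
      show ex (H r) d = 0 ↔ _
      rw [h5, h4 1]
      constructor
      · intro h0
        rw [h0, pow_zero]
      · intro h0
        by_contra hne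
        have h6 := Nat.one_lt_two_pow hne
        omega
  refine ⟨fun d r => ex (H r) d, P1, ?_, ?_, ?_, ?_, ?_, ?_⟩
  · rw [hfil]
    filter_upwards [hSet, lS_mem S₀, hNice.spn] with D hD hD1 hsp
    have hD' := dp_mem (Δ := ∏ r, Del (a r)) hPRD hD1
    have e1 : ∀ σ : ∀ r, Tau (a r) → ZMod 2, _ := fun σ => dva_num H hCLN hPRD hKDR hD' hsp c σ
    have e2 : ∀ σ : ∀ r, Tau (a r) → ZMod 2, _ := fun σ => dvc_num H hCLN hPRD hD' hsp c σ
    have e3 : (∑ r, (nodes (a r)).ncard) = ∑ r, Fintype.card (Tau (a r)) :=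
      Finset.sum_congr rfl fun r _ => badN_card (H r)
    constructor
    · have e4 : {P ∈ primes D | PrimeTo a P} = ((Pool.Agent.Q269.GR.pr (dp (∏ r, Del (a r)) D) : Finset k[X]) : Set k[X]) :=
        prc_eq H hPRD hD1
      rw [e4, Set.ncard_coe_finset, hD.2, Set.ncard_coe_finset, e1 (fun _ _ => 0), ← card_Ip, ← e2 (fun _ _ => 0), pow_add]
      ring
    · intro σ hσ
      have e5 : SplitClass a N σ D = ((dvc H c (fun r => sgT (a r) (σ r)) (dp (∏ r, Del (a r)) D) : Finset k[X]) :
          Set k[X]) := clS_eq H hPRD hKDR hD1 c 0 hcc hσ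
      rw [e5, hD.2, Set.ncard_coe_finset, Set.ncard_coe_finset, e3]
      exact (e1 _).symm
  · intro f u C hf
    refine ⟨key f u C hf, fun σ hσ => ?_⟩
    obtain ⟨g1, g2⟩ := mean_dvc H hCLN hPRD hKDR hNice c hcc (fun r => sgT (a r) (σ r)) f u C hf
    simp only [pcl_eq H hσ, signedLaw_eq] at g1 g2
    rw [tendsto_map'_iff] at g2
    refine ⟨g1, ?_⟩
    rw [hfil]
    refine g2.congr' ?_
    filter_upwards [hSetC σ hσ] with D hD
    unfold mean
    rw [hD]
    exact (mean_coe _ _).symm
  · intro u
    obtain ⟨U, hU⟩ : ∃ U : ℕ, ∀ r, u r ≤ U := ⟨∑ r, u r, fun r => Finset.single_le_sum (fun _ _ => Nat.zero_le _) (Finset.mem_univ r)⟩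
    obtain ⟨-, g2⟩ := key (fun x => ∏ r, ((2 : ℝ) ^ x r) ^ u r) U 1 (fun x => by
      rw [one_mul, abs_of_nonneg (Finset.prod_nonneg fun r _ => by positivity)]
      unfold wt
      refine Finset.prod_le_prod (fun r _ => by positivity) fun r _ => ?_
      rw [← pow_mul, ← pow_mul]
      exact pow_le_pow_right₀ (by norm_num) (by rw [mul_comm]; exact Nat.mul_le_mul_right _ (hU r)))
    have g3 := hasSum_prod (fun r e => law e * ((2 : ℝ) ^ u r) ^ e) (fun r => ∏ i ∈ Finset.range (u r), (1 + (2 : ℝ) ^ (i + 1)))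
      (fun r e => mul_nonneg (by rw [← law_eq]; exact Pool.Agent.Q269.SL.law2_nonneg _) (by positivity))
      (fun r => by rw [← law_eq]; exact mom_law2 (u r))
    have g4 : (∑' x : Fin (l + 1) → ℕ, (∏ r, ((2 : ℝ) ^ x r) ^ u r) * ∏ r, law (x r)) =
        ∏ r, ∏ i ∈ Finset.range (u r), (1 + (2 : ℝ) ^ (i + 1)) := by
      rw [← g3.tsum_eq]
      refine tsum_congr fun x => ?_
      rw [← Finset.prod_mul_distrib]
      refine Finset.prod_congr rfl fun r _ => ?_
      rw [← pow_mul, ← pow_mul, mul_comm (x r) (u r), mul_comm]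
    rw [g4] at g2
    exact g2
  · obtain ⟨-, g2⟩ := key (fun x => if x = 0 then 1 else 0) 0 1 (fun x => by
      have h1 : wt 0 x = 1 := by
        unfold wt
        simp
      rw [h1]
      split_ifs <;> norm_num)
    have g3 : (∑' x : Fin (l + 1) → ℕ, (if x = 0 then (1 : ℝ) else 0) * ∏ r, law (x r)) = (beta / 2) ^ (l + 1) := by
      rw [tsum_eq_single 0 fun x hx => by rw [if_neg hx, zero_mul], if_pos rfl, one_mul]
      have h1 : ∀ r : Fin (l + 1), law ((0 : Fin (l + 1) → ℕ) r) = beta / 2 := by
        intro r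
        show law 0 = _
        unfold law
        rw [Finset.prod_range_zero, pow_zero, div_one, mul_one]
      rw [Finset.prod_congr rfl fun r _ => h1 r, Finset.prod_const, Finset.card_univ, Fintype.card_fin]
    rw [g3] at g2
    rw [hfil] at g2 ⊢
    refine g2.congr' ?_
    filter_upwards [hSet] with D hD
    unfold mean
    congr 1
    rw [hD.2, finsum_mem_coe_finset, finsum_mem_coe_finset]
    refine Finset.sum_congr rfl fun d hd => ?_
    have hd' : d ∈ Divisors a N D := by
      rw [hD.2]
      exact hd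
    have hsq : Squarefree D := (Pool.Agent.Q269.DX.mem_one.1 hD.1).2
    have h3 : (∀ r, Good (twist K (a r) d) k[X]) ↔ (fun r => ex (H r) d) = 0 := by
      constructor
      · intro g
        funext r
        exact (P1 d hd'.1 (hsq.squarefree_of_dvd hd'.2.1) hd'.2.2.1 hd'.2.2.2 r).2.2.2 (g r)
      · intro g r
        exact (P1 d hd'.1 (hsq.squarefree_of_dvd hd'.2.1) hd'.2.2.1 hd'.2.2.2 r).2.2.1 (congrFun g r)
    by_cases h4 : (fun r => ex (H r) d) = 0
    · rw [if_pos h4, if_pos (h3.2 h4)]
    · rw [if_neg h4, if_neg fun h5 => h4 (h3.1 h5)]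
  · intro r
    obtain ⟨-, g2⟩ := key (fun x => (x r : ℝ)) 1 1 (fun x => by
      rw [one_mul, abs_of_nonneg (Nat.cast_nonneg _)]
      have h1 : (x r : ℝ) ≤ (2 : ℝ) ^ x r := by exact_mod_cast (Nat.lt_two_pow_self (n := x r)).le
      refine h1.trans ?_
      unfold wt
      rw [← Finset.mul_prod_erase Finset.univ (fun r => ((2 : ℝ) ^ 1) ^ x r) (Finset.mem_univ r), pow_one]
      refine le_mul_of_one_le_right (by positivity) ?_
      calc (1 : ℝ) = ∏ _s ∈ Finset.univ.erase r, (1 : ℝ) := by rw [Finset.prod_const_one]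
        _ ≤ ∏ s ∈ Finset.univ.erase r, ((2 : ℝ)) ^ x s :=
          Finset.prod_le_prod (fun _ _ => zero_le_one) fun s _ => one_le_pow₀ (by norm_num))
    have g3 := hasSum_prod (fun s e => if s = r then (e : ℝ) * law e else law e) (fun s => if s = r then rho else 1)
      (fun s e => by
        have : 0 ≤ law e := by rw [← law_eq]; exact Pool.Agent.Q269.SL.law2_nonneg _
        split_ifs
        · exact mul_nonneg (Nat.cast_nonneg _) this
        · exact this)
      (fun s => by
        split_ifs
        · rw [rho_eq, ← law_eq]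
          exact Pool.Agent.Q269.AV.summable_elaw.hasSum
        · rw [← law_eq]
          exact hasSum_law2)
    have g4 : (∑' x : Fin (l + 1) → ℕ, (x r : ℝ) * ∏ r, law (x r)) = rho := by
      have e1 : ∏ s, (if s = r then rho else (1 : ℝ)) = rho := by
        rw [Finset.prod_ite_eq' Finset.univ r]
        simp
      rw [← e1, ← g3.tsum_eq]
      refine tsum_congr fun x => ?_
      rw [← Finset.mul_prod_erase Finset.univ (fun s => law (x s)) (Finset.mem_univ r),
        ← Finset.mul_prod_erase Finset.univ (fun s => if s = r then (x s : ℝ) * law (x s) else law (x s)) (Finset.mem_univ r),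
        if_pos rfl, mul_assoc]
      congr 2
      refine Finset.prod_congr rfl fun s hs => ?_
      rw [if_neg (Finset.ne_of_mem_erase hs)]
    rw [g4] at g2
    exact g2
  · intro ε hε
    rw [hfil]
    have hω : ∀ K : ℕ, ∀ᶠ D in Filter.map (dp (∏ r, Del (a r))) (lS S₀), K ≤ Fintype.card (Pool.Agent.Q269.GJ.Ip D) := by
      intro K'
      rw [eventually_map]
      filter_upwards [hS2 (K' + (Pool.Agent.Q269.GR.pr (∏ r, Del (a r))).card), lS_mem S₀] with D h1 h3
      have h4 := (card_dp hPRD (prd_ne H) h3).2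
      rw [card_Ip]
      omega
    have h1 := max_dva H hCLN hPRD hKDR hNice c hcc hω ε hε
    rw [eventually_map] at h1
    filter_upwards [h1, hSet] with D h3 hD d hd r
    rw [hD.2] at hd
    refine (h3 d hd r).trans (mul_le_mul_of_nonneg_left ?_ hε.le)
    have e1 : primes D = ((Pool.Agent.Q269.GR.pr D : Finset k[X]) : Set k[X]) := pr_eq hPRD hD.1
    rw [e1, Set.ncard_coe_finset, card_Ip]
    exact_mod_cast (card_dp hPRD (prd_ne H) hD.1).1

end Pool.Agent.Results.MP_48b749_nt.DivisorsOfAlmostEveryPolynomial
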