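import Mathlib
import Pool.Agent.Q283.FS.Sq

/-!
# The law of the 2-Selmer groups of the quadratic twists over `F_q(t)`, `q` fixed

Let `k` be a finite field of characteristic different from `2` in which `-1` is a square, `K = k(t)`, and
let `E : y² = x (x - a) (x - b)` be an elliptic curve over `K`, where `a`, `b` are coprime polynomials, `a`,
`b`, `a - b` have the same degree `N` and none of `a b`, `a (a - b)`, `b (a - b)` is a constant multiple of
a square. `E_D : y² = x (x - a D) (x - b D)` are the quadratic twists of `E`. Let `NonSplitTwists a b n` be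
the set of the monic squarefree polynomials `D` of degree `n`, prime to `a b (a - b)`, for which `E_D` has
non-split multiplicative reduction at all the finite places at which `E` has bad reduction, and let `n` go to
infinity through the numbers with `n + N` odd; these `D` are a positive proportion of all the monic
polynomials of degree `n`. A multiplier is a monic squarefree polynomial `m` of even degree that is a
nonzero square modulo all the prime divisors of `a b (a - b)`; for instance `m = 1`. For any sequence of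
different multipliers `m_0, m_1, …`:

* for all these `D` and all `i` the 2-Selmer group of `E_{D m_i}` over `K` has exactly `4 ^ (r + 1)` elements
  for some `r = r_i(D)`, the group `E_{D m_i}(K)` is finitely generated of rank at most `2 r`, and `r = 0` if
  and only if `E_{D m_i}(K)` is finite and the 2-primary part of the Tate-Shafarevich group of `E_{D m_i}`
  over `K` is zero (by Artin, Tate and Milne the Birch and Swinnerton-Dyer conjecture holds then);
* for every `M` and EVERY set `T` of vectors the proportion of the `D` with `(r_0(D), …, r_{M-1}(D))` in `T`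
  converges to the measure of `T` for the product of `M` copies of the law
  `law r = c 4^r / ((2 - 1) (2² - 1) ⋯ (2^{2 r} - 1))`, `c = ∏_{i odd} (1 - 2^{-i}) = 0.4194…`;
* for every `r` and `M`, for `100 %` of the `D` at least `M` of the Selmer groups of the curves `E_{D m_i}`
  have exactly `4 ^ (r + 1)` elements.
-/

set_option autoImplicit false

namespace Pool.Agent.Results.MP_48b749_nt.SelmerLawInTwists

open Polynomial Filter Pool.Agent.TH115.GD
open scoped Classical

/-- The polynomial `f` is not a square modulo `Q` (in particular it is not divisible by `Q`). -/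
def NonSquareMod {k : Type} [Field k] (Q f : k[X]) : Prop := ∀ h : k[X], ¬ Q ∣ h ^ 2 - f

/-- The polynomial `f` is not a constant multiple of a square. -/
def NotConstSquare {k : Type} [Field k] (f : k[X]) : Prop := ∀ (c : k) (h : k[X]), f ≠ C c * h ^ 2

/-- The monic squarefree polynomials `D` of degree `n` for which `b D` is not a square modulo the prime
divisors of `a` and `a D` is not a square modulo the prime divisors of `b (a - b)`. -/
def NonSplitTwists {k : Type} [Field k] (a b : k[X]) (n : ℕ) : Set k[X] :=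
  {D | D.Monic ∧ D.natDegree = n ∧ Squarefree D ∧
    (∀ Q : k[X], Irreducible Q → Q ∣ a → NonSquareMod Q (b * D)) ∧
    (∀ Q : k[X], Irreducible Q → Q ∣ b * (a - b) → NonSquareMod Q (a * D))}

/-- The multipliers: the monic squarefree polynomials of even degree that are nonzero squares modulo the
prime divisors of `a b (a - b)`. -/
structure Multiplier {k : Type} [Field k] (a b m : k[X]) : Prop where
  monic : m.Monic
  squarefree : Squarefree m
  even : Even m.natDegree
  square : ∀ Q : k[X], Irreducible Q → Q ∣ a * b * (a - b) → ¬ Q ∣ m ∧ ∃ h : k[X], Q ∣ h ^ 2 - m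

/-- The curve `E_D : y ^ 2 = x (x - a D) (x - b D)` over `K = k(t)`. -/
noncomputable def twist {k : Type} [Field k] (K : Type) [Field K] [Algebra k[X] K]
    (a b D : k[X]) : WeierstrassCurve K :=
  crv (algebraMap k[X] K (a * D)) (algebraMap k[X] K (b * D))

/-- The 2-Selmer group of a curve `W` over `K = k(t)` whose points of order two are rational: the
continuous cocycles with values in the group of the points of order at most two (on which the Galois group
acts trivially, so that these cocycles are the cohomology classes) that are coboundaries in `W` at all the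
places of `K`, the infinite place included. -/
def Sel (k : Type) {K : Type} [Field k] [Field K] [Algebra k[X] K] [IsFractionRing k[X] K]
    (W : WeierstrassCurve K) : Set ((Sep K ≃ₐ[K] Sep K) → Pt W (Sep K)) :=
  {f | IsCoc W f ∧ (∀ σ, f σ + f σ = 0) ∧ LocallyTrivial k W f}

/-- The proportion of the `D` with the property `P` in `NonSplitTwists a b n`. -/
noncomputable def proportion {k : Type} [Field k] (a b : k[X]) (P : k[X] → Prop) (n : ℕ) : ℝ :=
  (({D ∈ NonSplitTwists a b n | P D}.ncard : ℕ) : ℝ) / (((NonSplitTwists a b n).ncard : ℕ) : ℝ)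

/-- `n` goes to infinity with `n + N` odd. -/
def degrees (N : ℕ) : Filter ℕ := atTop ⊓ 𝓟 {n | Odd (n + N)}

/-- `law r = c 4^r / ((2 - 1) (2² - 1) ⋯ (2^{2 r} - 1))` with `c = ∏_{i odd} (1 - 2^{-i})`. -/
noncomputable def law (r : ℕ) : ℝ :=
  (∏' i : ℕ, (1 - (1 / 2 : ℝ) ^ (2 * i + 1))) * 4 ^ r / ∏ i ∈ Finset.range (2 * r), ((2 : ℝ) ^ (i + 1) - 1)

section proof

open Q283.FS Pool.Agent.Y164.PS

theorem cf_eq (j : ℕ) : Pool.Agent.Y697.PQ.cf j = 1 / ∏ i ∈ Finset.range j, ((2 : ℝ) ^ (i + 1) - 1) := by
  induction j with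
  | zero => simp [Pool.Agent.Y697.PQ.cf]
  | succ j ih =>
    rw [Pool.Agent.Y697.PQ.cf, ih, Finset.prod_range_succ, div_div]

theorem law_eq (r : ℕ) : lw r = law r := by
  unfold lw law
  rw [cf_eq]
  unfold Pool.Agent.Y703.CQ.c2
  ring

end proof

open Q283.FS Pool.Agent.Y164.PS in
theorem result (k : Type) [Field k] [Finite k] (h2 : (2 : k) ≠ 0) (hi : IsSquare (-1 : k))
    (K : Type) [Field K] [Algebra k[X] K] [IsFractionRing k[X] K] (a b : k[X]) (N : ℕ)
    (hco : IsCoprime a b) (ha : a.natDegree = N) (hb : b.natDegree = N)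
    (hab : (a - b).natDegree = N) (h₁ : NotConstSquare (a * b))
    (h₂ : NotConstSquare (a * (a - b))) (h₃ : NotConstSquare (b * (a - b)))
    (m : ℕ → k[X]) (hm : ∀ i, Multiplier a b (m i)) (hinj : Function.Injective m) :
    (∀ n : ℕ, Odd (n + N) → ∀ D ∈ NonSplitTwists a b n, ∀ i, ∃ r : ℕ,
      Nat.card (Sel k (twist K a b (D * m i))) = 4 ^ (r + 1) ∧
      AddGroup.FG (Pt (twist K a b (D * m i)) K) ∧
      Module.finrank ℤ (Pt (twist K a b (D * m i)) K) ≤ 2 * r ∧
      (r = 0 ↔ Finite (Pt (twist K a b (D * m i)) K) ∧ ShaTwo k (twist K a b (D * m i)))) ∧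
    (∀ (M : ℕ) (T : Set (Fin M → ℕ)), Tendsto (proportion a b fun D => ∃ r ∈ T, ∀ i : Fin M,
      Nat.card (Sel k (twist K a b (D * m i))) = 4 ^ (r i + 1)) (degrees N)
        (nhds (∑' r : T, ∏ i, law (r.1 i)))) ∧
    (∀ r M : ℕ, Tendsto (proportion a b fun D => ∃ F : Finset ℕ, F.card = M ∧ ∀ i ∈ F,
      Nat.card (Sel k (twist K a b (D * m i))) = 4 ^ (r + 1)) (degrees N) (nhds 1)) ∧
    (∃ c : ℝ, 0 < c ∧ ∀ᶠ n : ℕ in degrees N,
      c * (Nat.card k : ℝ) ^ n ≤ (((NonSplitTwists a b n).ncard : ℕ) : ℝ)) ∧
    HasSum law 1 ∧ 0.4194 < law 0 ∧ law 0 < 0.4195 := by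
  let _ : Fintype k := Fintype.ofFinite k
  have H : Hyp a b N := mk_hyp h2 hi hco ha hb hab h₁ h₂
  have hq := four_le h2 hi
  have h2t := two_types H h₁ h₂ h₃
  have hm' : ∀ i, Mlt a b (m i) := fun i => ⟨(hm i).monic, (hm i).squarefree, (hm i).even, (hm i).square⟩
  have hlaw : lw = law := funext law_eq
  have ar : ∀ {n : ℕ} {D : k[X]}, Odd (n + N) → D ∈ Cn a b n → ∀ i,
      Nat.card (Sel k (twist K a b (D * m i))) = 4 ^ (rr H (pf (m i)) D + 1) :=
    fun ho hD i => (arith (K := K) H hD ho (hm' i)).1
  have pinj : ∀ {r s : ℕ}, 4 ^ (r + 1) = 4 ^ (s + 1) → r = s := by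
    intro r s h
    have := Nat.pow_right_injective (le_refl 2 |>.trans (by norm_num : 2 ≤ 4)) h
    omega
  have prop_eq : ∀ (P Q : k[X] → Prop), (∀ n D, Odd (n + N) → D ∈ Cn a b n → (Q D ↔ P D)) →
      ∀ n, Odd (n + N) → (((Cn a b n).filter fun D => Q D).card : ℝ) / ((Cn a b n).card : ℝ) =
        proportion a b P n := by
    intro P Q h n ho
    have e1 := ncard_cls H n P
    have e2 := ncard_cls' H n
    show _ = (({D ∈ cls a b n | P D}.ncard : ℕ) : ℝ) / (((cls a b n).ncard : ℕ) : ℝ)
    rw [e1, e2]
    congr 2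
    exact Q283.Bin.fcc fun D hD => h n D ho hD
  refine ⟨fun n ho D hD i => ?_, fun M T => ?_, fun r M => ?_, ?_, ?_, ?_⟩
  · have hD' : D ∈ Cn a b n := (mem_Cn H).2 hD
    obtain ⟨g1, g2, g3, g4⟩ := arith (K := K) H hD' ho (hm' i)
    exact ⟨_, g1, g2, g3, g4⟩
  · refine tendsto_par fun e he => ?_
    have h1 := law_vec H hq h2t (m := fun i : Fin M => m i) (fun i => hm' i)
      (fun x y h => Fin.ext (hinj h)) T he
    rw [hlaw] at h1
    refine h1.congr fun X => ?_
    refine prop_eq _ _ (fun n D ho hD => ?_) _ (par_odd X he)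
    constructor
    · intro h
      exact ⟨_, h, fun i => ar ho hD i⟩
    · rintro ⟨r, hr, h⟩
      have e : (fun i : Fin M => rr H (pf (m i)) D) = r := by
        funext i
        have h3 := h i
        rw [ar ho hD] at h3
        exact pinj h3
      rw [e]
      exact hr
  · refine tendsto_par fun e he => ?_
    have hr : 0 < ∑' s : ({r} : Set ℕ), lw s := by
      rw [tsum_singleton r lw]
      exact lw_pos r
    refine (Q283.Bin.many_T sum_lw (fun s => (lw_pos s).le) (ne_Cn H hq h2t he)
      (law_seq H hq h2t hm' hinj he) {r} hr M).congr fun X => ?_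
    refine prop_eq _ _ (fun n D ho hD => ?_) _ (par_odd X he)
    refine exists_congr fun F => and_congr_right fun _ => forall_congr' fun i =>
      forall_congr' fun _ => ?_
    rw [Set.mem_singleton_iff, ar ho hD]
    exact ⟨fun h => by rw [h], fun h => pinj h⟩
  · obtain ⟨c, hc, h⟩ := Cn_lower H hq h2t
    refine ⟨c, hc, ?_⟩
    rw [degrees, eventually_inf_principal]
    filter_upwards [h] with n hn ho
    have e2 := ncard_cls' H n
    show _ ≤ (((cls a b n).ncard : ℕ) : ℝ)
    rw [e2, Nat.card_eq_fintype_card]
    exact hn (par_cast ho)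
  · rw [← hlaw]
    exact sum_lw
  · unfold law
    rw [mul_zero, Finset.prod_range_zero, pow_zero, mul_one, div_one]
    exact Pool.Agent.Y948.CQ.t_C2.2.2.2

end Pool.Agent.Results.MP_48b749_nt.SelmerLawInTwists
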