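import Pool.Agent.TH958.T5.Fin
import Pool.Agent.Q45.BSD.Rat

/-!
# Rank equals order of vanishing for a universal family of rank four, over all base curves

Let `k` be a finite field of characteristic at least 5 and `K` the function field of a curve over `k`.
For `T, x, y, z` in `K` let

`E : Y² = X (X² + a X + b)`,

`a = -4 ((1 + x² + y² + z²) T + 8 (x² y² + y² z² + z² x²) + 8 (x y z)²)`,

`b = 4 q₁ q₂ q₃`, `q₁ = T + 4 x² + 4 y² z²`, `q₂ = T + 4 y² + 4 z² x²`, `q₃ = T + 4 z² + 4 x² y²`.

Then `a² - 4 b = -16 (T - 8 x y z) (T + 8 x y z) r` with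
`r = T - (1 - x² - y² - z²)² + 4 (x² y² + y² z² + z² x²)`.

(1) If the class number of `K` is odd, each of the six functions has exactly one zero, of odd order and
at a place of odd degree, the zeros of the first three and those of the last three are distinct, and
the poles satisfy a mild condition, then `E` has a `K`-rational point of order two, four independent
points over `K`, and its `L`-function vanishes at `T = 1 / |k|` to order at most four; so if the
rank is at most the order (this is known, Tate), the rank and the order are equal to four.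

(2) For `K = k(t)` and polynomials `T, x, y, z` the conditions hold if the six polynomials are
irreducible of odd degree and the first three and the last three are pairwise not associated.

(3) For all constants `x, y, z` in `k` outside the hyperplanes of an arrangement (of type F₄), all prime
numbers `ℓ ≥ 7` dividing `|k| - 1` with `(ℓ - 1)² < |k|`, there is a constant `c` such that the conditions
hold for `T = t ^ (ℓ ^ n) - c` for all `n`: the rank and the order are four in the whole tower over the
rational elliptic surface with the parameters `x, y, z`. There are such `k`, `ℓ`, `x`, `y`, `z` in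
all characteristics.
-/

set_option autoImplicit false
set_option linter.all false
set_option maxHeartbeats 4000000

open Polynomial Pool.Agent.W343.BSD

namespace Pool.Agent.Results.MP_48b749_nt.UniversalRankFour

section defs

variable {R : Type} [CommRing R]

/-- `q(T; x; y, z) = T + 4 x² + 4 y² z²`. -/
def q (T x y z : R) : R := T + 4 * x ^ 2 + 4 * (y ^ 2 * z ^ 2)

/-- `r = T - (1 - x² - y² - z²)² + 4 (x² y² + y² z² + z² x²)`. -/
def r (T x y z : R) : R :=
  T - (1 - (x ^ 2 + y ^ 2 + z ^ 2)) ^ 2 + 4 * (x ^ 2 * y ^ 2 + y ^ 2 * z ^ 2 + z ^ 2 * x ^ 2)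

/-- The coefficient `a`. -/
def ca (T x y z : R) : R :=
  -4 * ((1 + (x ^ 2 + y ^ 2 + z ^ 2)) * T + 8 * (x ^ 2 * y ^ 2 + y ^ 2 * z ^ 2 + z ^ 2 * x ^ 2) +
    8 * (x * y * z) ^ 2)

/-- The coefficient `b = 4 q₁ q₂ q₃`. -/
def cb (T x y z : R) : R := 4 * (q T x y z * q T y z x * q T z x y)

/-- The three factors of `b`. -/
def facb (T x y z : R) : Fin 3 → R := ![q T x y z, q T y z x, q T z x y]

/-- The three factors of `a² - 4 b`. -/
def facd (T x y z : R) : Fin 3 → R := ![T - 8 * (x * y * z), T + 8 * (x * y * z), r T x y z]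

/-- The product of the linear forms of the arrangement. -/
def arr (x y z : R) : R :=
  (x * y * z) * (((x ^ 2 - y ^ 2) * (y ^ 2 - z ^ 2) * (z ^ 2 - x ^ 2)) *
    ((1 - x ^ 2) * (1 - y ^ 2) * (1 - z ^ 2))) *
  (((1 + (x + y + z)) * ((1 + (x - y - z)) * ((1 + (-x + y - z)) * (1 + (-x - y + z))))) *
    ((1 - (x + y + z)) * ((1 - (x - y - z)) * ((1 - (-x + y - z)) * (1 - (-x - y + z))))))

end defs

section curve

variable {K : Type} [Field K]

/-- First coefficient of the short form of `Y² = X (X² + a X + b)`. -/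
def coeffA (T x y z : K) : K := cb T x y z - ca T x y z ^ 2 / 3

/-- Second coefficient of the short form of `Y² = X (X² + a X + b)`. -/
def coeffB (T x y z : K) : K := 2 * ca T x y z ^ 3 / 27 - ca T x y z * cb T x y z / 3

/-- The curve `Y² = X (X² + a X + b)` in short form (with `X + a / 3` in the place of `X`). -/
def curve (T x y z : K) : WeierstrassCurve K := ⟨0, 0, 0, coeffA T x y z, coeffB T x y z⟩

end curve

section conditions

variable (k : Type) {K : Type} [Field k] [Field K] [Algebra k K]

/-- `x` has exactly one zero, and the order of this zero and the degree of the place are odd. -/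
def OneZero (x : K) : Prop :=
  ∃ v : FF.Place k K, 0 < v.ord x ∧ Odd (v.ord x) ∧ Odd (S.deg v) ∧
    ∀ w : FF.Place k K, 0 < w.ord x → w = v

/-- The conditions on the four functions. -/
structure Conditions (T x y z : K) : Prop where
  /-- the three factors of `b` have one zero each -/
  zerob : ∀ i, OneZero k (facb T x y z i)
  /-- the three factors of `a² - 4 b` have one zero each -/
  zerod : ∀ i, OneZero k (facd T x y z i)
  /-- where one of the first three has a zero, the two others have neither a zero nor a pole -/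
  sepb : ∀ (v : FF.Place k K) (i j : Fin 3), i ≠ j → 0 < v.ord (facb T x y z i) →
    v.ord (facb T x y z j) = 0
  /-- where one of the last three has a zero, the two others have neither a zero nor a pole -/
  sepd : ∀ (v : FF.Place k K) (i j : Fin 3), i ≠ j → 0 < v.ord (facd T x y z i) →
    v.ord (facd T x y z j) = 0
  /-- At all poles of `T, x, y, z`, apart from one place of odd degree, `T` has a pole whose order is
  divisible by four and larger than four times the orders of the poles of `x, y, z`. -/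
  pole : ∃ v : FF.Place k K, Odd (S.deg v) ∧ ∀ w : FF.Place k K, w ≠ v →
    (w.ord T < 0 ∨ w.ord x < 0 ∨ w.ord y < 0 ∨ w.ord z < 0) →
      (4 : ℤ) ∣ w.ord T ∧ w.ord T < 0 ∧ w.ord T < 4 * w.ord x ∧ w.ord T < 4 * w.ord y ∧
        w.ord T < 4 * w.ord z

open Classical in
/-- `E` is an elliptic curve, with non-constant `j`-invariant if `a ≠ 0`, with a `K`-rational point of
order two and four linearly independent points over `K`; its `L`-function vanishes at `T = 1 / |k|`
to order at most 4: if it is `(1 - |k| T) ^ M G(T)` with `G` in `ℤ[T]`, then `M ≤ 4`. If it is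
a polynomial with order of vanishing `ρ` and the rank is at most `ρ`, then the rank and `ρ` are equal
to 4. -/
def RankAndOrderFour [Finite k] (T x y z : K) : Prop :=
  4 * coeffA T x y z ^ 3 + 27 * coeffB T x y z ^ 2 ≠ 0 ∧
  (ca T x y z ≠ 0 → ∀ c : k,
    6912 * coeffA T x y z ^ 3 / (4 * coeffA T x y z ^ 3 + 27 * coeffB T x y z ^ 2) ≠
      algebraMap k K c) ∧
  (∃ P : (curve T x y z).toAffine.Point, addOrderOf P = 2) ∧
  (∃ P : Fin 4 → (curve T x y z).toAffine.Point, LinearIndependent ℤ P) ∧
  (∀ M : ℕ, S.VanishesTo k (coeffA T x y z) (coeffB T x y z) M → M ≤ 4) ∧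
  ∀ ρ : ℕ, Pool.Agent.W313.Gr.HasOrder k (coeffA T x y z) (coeffB T x y z) ρ →
    Module.rank ℤ (curve T x y z).toAffine.Point ≤ ρ →
      ρ = 4 ∧ Module.rank ℤ (curve T x y z).toAffine.Point = 4

end conditions

section proofs

theorem isE {K : Type} [Field K] (h3 : (3 : K) ≠ 0) (T x y z : K) :
    Q45.BSD.IsE (curve T x y z) (ca T x y z / 3) (Q45.Tate.cA T x y z) (Q45.Tate.cB T x y z) where
  a1 := rfl
  a2 := by
    show (0 : K) = ca T x y z - 3 * (ca T x y z / 3)
    field_simp
    ring
  a3 := rfl
  a4 := by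
    show cb T x y z - ca T x y z ^ 2 / 3 = 3 * (ca T x y z / 3) ^ 2 -
      2 * ca T x y z * (ca T x y z / 3) + cb T x y z
    field_simp
    ring
  a6 := by
    show 2 * ca T x y z ^ 3 / 27 - ca T x y z * cb T x y z / 3 = -(ca T x y z / 3) ^ 3 +
      ca T x y z * (ca T x y z / 3) ^ 2 - cb T x y z * (ca T x y z / 3)
    have : (27 : K) = 3 ^ 3 := by norm_num
    rw [this]
    field_simp
    ring

open Classical WeierstrassCurve.Affine in
theorem order_two {K : Type} [Field K] (h2 : (2 : K) ≠ 0) {V : WeierstrassCurve K} {e a b : K}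
    (hE : Q45.BSD.IsE V e a b) (hb : b ≠ 0) (hd : a ^ 2 - 4 * b ≠ 0) :
    ∃ P : V.toAffine.Point, addOrderOf P = 2 := by
  have h5 : ∀ r : K, algebraMap K K r = r := fun r => rfl
  have hn : V.toAffine.Nonsingular e 0 := by
    have := hE.nons (L := K) h2 hb hd (x := e) (y := 0) (by rw [h5, h5, h5]; ring)
    exact this
  refine ⟨Point.some e 0 hn, ?_⟩
  haveI : Fact (Nat.Prime 2) := ⟨Nat.prime_two⟩
  refine addOrderOf_eq_prime ?_ (Point.some_ne_zero _)
  rw [two_smul]
  apply Point.add_self_of_Y_eq
  show (0 : K) = -0 - V.toAffine.a₁ * e - V.toAffine.a₃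
  have e1 : V.toAffine.a₁ = 0 := hE.a1
  have e3 : V.toAffine.a₃ = 0 := hE.a3
  rw [e1, e3]
  ring

theorem rank_and_order {k K : Type} [Field k] [Finite k] [Field K] [Algebra k K]
    (h6 : (6 : k) ≠ 0) (hK : IsCurveField k K) (hcl : Odd (S.classNumber k K)) {T x y z : K}
    (G : Conditions k T x y z) : RankAndOrderFour k T x y z := by
  classical
  haveI : FF.IsFF k K := ⟨hK.essFiniteType, hK.trdeg_eq_one⟩
  have hc : constDeg k K = 1 := Pool.Agent.TH958.T4.constDeg_eq_one hK.algClosed
  have G' : Q45.BSD.Cond k T x y z := ⟨G.zerob, G.zerod, G.sepb, G.sepd, G.pole⟩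
  have h3 : (3 : K) ≠ 0 := Pool.Agent.W309.RK.three_K (k := k) h6
  have h2 : (2 : K) ≠ 0 := Q45.BSD.two_K (k := k) h6
  have hE := isE h3 T x y z
  have hb0 := G'.b0 h6
  have hd0 := G'.d0 h6
  have hdisc : 4 * coeffA T x y z ^ 3 + 27 * coeffB T x y z ^ 2 ≠ 0 :=
    Q45.BSD.hdiscT (k := k) h6 hb0 hd0
  have hP : ∃ P : Fin 4 → (Pool.Agent.W313.Gr.curve (coeffA T x y z)
      (coeffB T x y z)).toAffine.Point, LinearIndependent ℤ P := G'.lower h6 hE
  have hM : ∀ M : ℕ, S.VanishesTo k (coeffA T x y z) (coeffB T x y z) M → M ≤ 4 :=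
    fun M hM => G'.upper h6 hc hcl M hM
  refine ⟨hdisc, fun ha c hcc => ?_, order_two h2 hE hb0 hd0, hP, hM, fun ρ hρ hle => ?_⟩
  · rw [div_eq_iff hdisc] at hcc
    exact G'.j_ne h6 ha c hcc
  · exact Pool.Agent.TH958.T5.equalities hP hM ρ hρ hle

end proofs

/-- Part (1): rank and order over the function fields of odd class number. -/
def OverCurves : Prop :=
  ∀ (k K : Type) [Field k] [Finite k] [Field K] [Algebra k K], (6 : k) ≠ 0 →
    IsCurveField k K → Odd (S.classNumber k K) → ∀ T x y z : K, Conditions k T x y z →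
      RankAndOrderFour k T x y z

/-- The conditions hold for the polynomials `T, x, y, z` over `k`, in `K = k(t)`. -/
def PolyConditions (k : Type) [Field k] (T x y z : k[X]) : Prop :=
  Conditions k (algebraMap k[X] (RatFunc k) T) (algebraMap k[X] (RatFunc k) x)
    (algebraMap k[X] (RatFunc k) y) (algebraMap k[X] (RatFunc k) z)

/-- Part (2): the projective line. -/
def OverLine : Prop :=
  ∀ (k : Type) [Field k] [Finite k], IsCurveField k (RatFunc k) ∧
    Odd (S.classNumber k (RatFunc k)) ∧
    ∀ T x y z : k[X], (∀ i, Irreducible (facb T x y z i) ∧ Odd (facb T x y z i).natDegree) →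
      (∀ i, Irreducible (facd T x y z i) ∧ Odd (facd T x y z i).natDegree) →
      (∀ i j, i ≠ j → ¬ facb T x y z i ∣ facb T x y z j ∧ ¬ facd T x y z i ∣ facd T x y z j) →
        PolyConditions k T x y z

/-- `x, y, z` are outside of the arrangement, and `ℓ ≥ 7` is a prime number which divides `|k| - 1`,
with `(ℓ - 1)² < |k|`. -/
def Parameters (k : Type) [Field k] (ℓ : ℕ) (x y z : k) : Prop :=
  ℓ.Prime ∧ 7 ≤ ℓ ∧ ℓ ∣ Nat.card k - 1 ∧ (ℓ - 1) ^ 2 < Nat.card k ∧ arr x y z ≠ 0

/-- Part (3): towers. -/
def Towers : Prop :=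
  (∀ (k : Type) [Field k] [Finite k], (2 : k) ≠ 0 → ∀ (ℓ : ℕ) (x y z : k), Parameters k ℓ x y z →
    ∃ c : k, ∀ n : ℕ, PolyConditions k (X ^ ℓ ^ n - C c) (C x) (C y) (C z)) ∧
  ∀ p : ℕ, p.Prime → ∃ (k : Type) (_ : Field k) (_ : Finite k) (_ : CharP k p) (ℓ : ℕ)
    (x y z : k), Parameters k ℓ x y z

/-- The theorem; see the beginning of the file. -/
theorem result : OverCurves ∧ OverLine ∧ Towers := by
  refine ⟨?_, ?_, ?_, ?_⟩
  · intro k K _ _ _ _ h6 hK hcl T x y z G
    exact rank_and_order h6 hK hcl G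
  · intro k _ _
    refine ⟨Pool.Agent.TH958.T4.isCurveField_rat, (Pool.Agent.W309.RK.sb k).2.2, ?_⟩
    intro T x y z hb hd hn
    have G := Q45.BSD.cond_rat (k := k) (T := T) (x := x) (y := y) (z := z)
      (fun i => (hb i).1) (fun i => (hb i).2) (fun i j hij => (hn i j hij).1)
      (fun i => (hd i).1) (fun i => (hd i).2) (fun i j hij => (hn i j hij).2)
    exact ⟨G.zq, G.zd, G.uq, G.ud, G.pole⟩
  · rintro k _ _ h2 ℓ x y z ⟨hℓ, h7, hd, hq, h⟩
    obtain ⟨c, hc⟩ := Q45.BSD.tower h2 hℓ h7 hd hq (x := x) (y := y) (z := z) h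
    refine ⟨c, fun n => ?_⟩
    have G := hc n
    exact ⟨G.zq, G.zd, G.uq, G.ud, G.pole⟩
  · intro p hp
    haveI : Fact p.Prime := ⟨hp⟩
    exact Q45.BSD.exists_params p

end Pool.Agent.Results.MP_48b749_nt.UniversalRankFour
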